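import Mathlib
import Pool.Agent.H25.Evc
import Pool.Agent.H25.EvcTab

namespace Pool.Agent.Results.MP_16080b_co.Rounds

open Finset Pool.Agent.H25.Evc

/-- a position: the colours (`0` = uncoloured), the vertices already picked in the current round,
and whether it is Bob's turn -/
structure Pos (n : ℕ) where
  col : Fin n → ℕ
  picked : Finset (Fin n)
  bob : Bool

variable {n : ℕ}

/-- colour `x` may be given to `v` -/
def Allowed (G : SimpleGraph (Fin n)) (k : ℕ) (p : Pos n) (v : Fin n) (x : ℕ) : Prop :=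
  1 ≤ x ∧ x ≤ k ∧ x ≠ p.col v ∧ ∀ u, G.Adj v u → p.col u ≠ x

/-- the position after `v` is picked and coloured `x`; a new round starts when all are picked -/
def move (p : Pos n) (v : Fin n) (x : ℕ) : Pos n :=
  ⟨Function.update p.col v x, if insert v p.picked = univ then ∅ else insert v p.picked, !p.bob⟩

def start (n : ℕ) : Pos n := ⟨fun _ => 0, ∅, false⟩

/-- Bob can force a win within the next `t` turns -/
def BobWins (G : SimpleGraph (Fin n)) (k : ℕ) : ℕ → Pos n → Prop
  | 0, _ => False
  | t + 1, p =>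
    if p.bob then
      ∃ v, v ∉ p.picked ∧ ((∀ x, ¬ Allowed G k p v x) ∨
        ∃ x, Allowed G k p v x ∧ BobWins G k t (move p v x))
    else ∀ v, v ∉ p.picked → ∀ x, Allowed G k p v x → BobWins G k t (move p v x)

/-- Alice has a winning strategy: she can keep play for ever inside a set `S` of positions -/
def AliceWins (G : SimpleGraph (Fin n)) (k : ℕ) : Prop :=
  ∃ S : Set (Pos n), start n ∈ S ∧ ∀ p ∈ S,
    if p.bob then
      ∀ v, v ∉ p.picked → (∃ x, Allowed G k p v x) ∧ ∀ x, Allowed G k p v x → move p v x ∈ S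
    else ∃ v, v ∉ p.picked ∧ ∃ x, Allowed G k p v x ∧ move p v x ∈ S

lemma not_alice (G : SimpleGraph (Fin n)) (k t : ℕ) (h : BobWins G k t (start n)) :
    ¬ AliceWins G k := by
  rintro ⟨S, h0, hS⟩
  have : ∀ t p, p ∈ S → ¬ BobWins G k t p := by
    intro t
    induction t with
    | zero => intro p _ h; exact h
    | succ t ih =>
      intro p hp h
      have h1 := hS p hp
      unfold BobWins at h
      split_ifs at h h1
      · obtain ⟨v, hv, h | ⟨x, hx, h⟩⟩ := h
        · obtain ⟨x, hx⟩ := (h1 v hv).1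
          exact h x hx
        · exact ih _ ((h1 v hv).2 x hx) h
      · obtain ⟨v, hv, x, hx, h2⟩ := h1
        exact ih _ h2 (h v hv x hx)
  exact this t _ h0 h

lemma mono (G : SimpleGraph (Fin n)) (k : ℕ) :
    ∀ t p, BobWins G k t p → BobWins G k (t + 1) p := by
  intro t
  induction t with
  | zero => intro p h; exact h.elim
  | succ t ih =>
    intro p h
    unfold BobWins at h ⊢
    split_ifs at h ⊢
    · obtain ⟨v, hv, h | ⟨x, hx, h⟩⟩ := h
      · exact ⟨v, hv, Or.inl h⟩
      · exact ⟨v, hv, Or.inr ⟨x, hx, ih _ h⟩⟩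
    · exact fun v hv x hx => ih _ (h v hv x hx)

lemma mono' (G : SimpleGraph (Fin n)) (k : ℕ) (p : Pos n) {t u : ℕ} (htu : t ≤ u)
    (h : BobWins G k t p) : BobWins G k u p := by
  induction htu with
  | refl => exact h
  | step _ ih => exact mono G k _ _ ih

def nb : ℕ → List ℕ
  | 0 => [2, 3]
  | 1 => [2, 4]
  | 2 => [0, 1, 4]
  | 3 => [0]
  | _ => [1, 2]

def G0 : SimpleGraph (Fin 5) where
  Adj u v := v.val ∈ nb u.val
  symm := ⟨by decide⟩
  loopless := ⟨by decide⟩

def pk (m : ℕ) : Finset (Fin 5) := univ.filter (fun v => m.testBit v.val)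
def toPos (s m : ℕ) (b : Bool) : Pos 5 := ⟨fun v => dg s v, pk m, b⟩
def al (s v x : ℕ) : Bool := x != dg s v && (nb v).all (fun u => dg s u != x)

lemma allowed_iff (k s m : ℕ) (b : Bool) (v : Fin 5) (x : ℕ) :
    Allowed G0 k (toPos s m b) v x ↔ x ∈ List.range' 1 k ∧ al s v x = true := by
  have hnb : ∀ v : Fin 5, ∀ u ∈ nb v, u < 5 := by decide
  simp only [Allowed, toPos, al, List.mem_range'_1, Bool.and_eq_true, bne_iff_ne, List.all_eq_true,
    G0]
  constructor
  · rintro ⟨h1, h2, h3, h4⟩
    exact ⟨⟨h1, by omega⟩, h3, fun u hu => h4 ⟨u, hnb v u hu⟩ hu⟩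
  · rintro ⟨⟨h1, h2⟩, h3, h4⟩
    exact ⟨h1, by omega, h3, fun u hu => h4 u hu⟩

lemma nm_lt : ∀ m < 32, ∀ v : Fin 5, nm m v < 32 := by decide +kernel

lemma move_eq (s m : ℕ) (hm : m < 32) (b : Bool) (v : Fin 5) (x : ℕ) (hx : x ≤ 5) :
    move (toPos s m b) v x = toPos (upd s v x) (nm m v) (!b) := by
  have h1 : ∀ m < 32, ∀ v : Fin 5,
      (if insert v (pk m) = univ then ∅ else insert v (pk m)) = pk (nm m v) := by decide +kernel
  simp only [move, toPos, h1 m hm v]
  congr 1
  funext w
  rw [dg_upd s v w x hx, Function.update_apply]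

def ex (k : ℕ) (T : List ℕ) (stop : Bool) (s m : ℕ) : Bool :=
  (List.range 5).any (fun v => !m.testBit v &&
    ((stop && (List.range' 1 k).all (fun x => !al s v x)) ||
      (List.range' 1 k).any (fun x => al s v x && inT T (upd s v x) (nm m v))))

def fa (k : ℕ) (T : List ℕ) (stop : Bool) (s m : ℕ) : Bool :=
  (List.range 5).all (fun v => m.testBit v ||
    ((stop || (List.range' 1 k).any (fun x => al s v x)) &&
      (List.range' 1 k).all (fun x => !al s v x || inT T (upd s v x) (nm m v))))

def chkB (k : ℕ) : List (List ℕ) → Bool → Bool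
  | [], _ => false
  | [T], _ => level T (fun _ _ => false)
  | T :: U :: L, b => level T (if b then ex k U true else fa k U true) && chkB k (U :: L) (!b)

def chkA (k : ℕ) : List (List ℕ) → Bool → Bool
  | [], _ => false
  | [_], _ => true
  | T :: U :: L, b => level T (if b then fa k U false else ex k U false) && chkA k (U :: L) (!b)

lemma notin_pk (m : ℕ) (v : Fin 5) : v ∉ pk m ↔ m.testBit v = false := by simp [pk]

lemma soundB (k : ℕ) (hk : k ≤ 5) : ∀ (L : List (List ℕ)) (T : List ℕ) (b : Bool),
    chkB k (T :: L) b = true → ∀ s m, m < 32 → inT T s m = true →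
      BobWins G0 k L.length (toPos s m b)
  | [], T, b, h, s, m, hm, hs => by
    have := level_sound T _ h s m hm hs
    simp at this
  | U :: L, T, b, h, s, m, hm, hs => by
    unfold chkB at h
    rw [Bool.and_eq_true] at h
    have ih := soundB k hk L U (!b) h.2
    have h1 := level_sound T _ h.1 s m hm hs
    have hx5 : ∀ x ∈ List.range' 1 k, x ≤ 5 := by
      intro x hx; rw [List.mem_range'_1] at hx; omega
    rw [List.length_cons]
    unfold BobWins
    cases b
    · rw [if_neg (by simp [toPos])]
      intro v hv x hx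
      rw [allowed_iff] at hx
      simp only [fa, Bool.false_eq_true, if_false, List.all_eq_true, Bool.or_eq_true,
        Bool.and_eq_true] at h1
      have hv' := (notin_pk m v).1 hv
      rcases h1 v (List.mem_range.mpr v.2) with h2 | ⟨_, h2⟩
      · rw [hv'] at h2; cases h2
      · rcases h2 x hx.1 with h3 | h3
        · rw [hx.2] at h3; cases h3
        · rw [move_eq s m hm _ v x (hx5 x hx.1)]
          exact ih _ _ (nm_lt m hm v) h3
    · rw [if_pos (by simp [toPos])]
      simp only [ex, if_true, List.any_eq_true, List.all_eq_true, Bool.or_eq_true,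
        Bool.and_eq_true, List.mem_range] at h1
      obtain ⟨v, hv5, hv, h2⟩ := h1
      refine ⟨⟨v, hv5⟩, (notin_pk m _).2 (by simpa using hv), ?_⟩
      rcases h2 with ⟨_, h2⟩ | ⟨x, hx, h2, h3⟩
      · left
        intro x hx
        rw [allowed_iff] at hx
        have := h2 x hx.1
        rw [show al s v x = true from hx.2] at this
        cases this
      · right
        refine ⟨x, (allowed_iff _ _ _ _ _ _).2 ⟨hx, h2⟩, ?_⟩
        rw [move_eq s m hm _ _ x (hx5 x hx)]
        exact ih _ _ (nm_lt m hm ⟨v, hv5⟩) h3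

lemma soundA (k : ℕ) (hk : k ≤ 5) : ∀ (L : List (List ℕ)) (T : List ℕ) (b : Bool),
    chkA k (T :: L) b = true → ∀ s m, m < 32 → inT T s m = true →
      ¬ BobWins G0 k L.length (toPos s m b)
  | [], T, b, h, s, m, hm, hs => fun h => h
  | U :: L, T, b, h, s, m, hm, hs => by
    unfold chkA at h
    rw [Bool.and_eq_true] at h
    have ih := soundA k hk L U (!b) h.2
    have h1 := level_sound T _ h.1 s m hm hs
    have hx5 : ∀ x ∈ List.range' 1 k, x ≤ 5 := by
      intro x hx; rw [List.mem_range'_1] at hx; omega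
    rw [List.length_cons]
    unfold BobWins
    cases b
    · rw [if_neg (by simp [toPos])]
      simp only [ex, Bool.false_eq_true, if_false, List.any_eq_true, Bool.or_eq_true,
        Bool.and_eq_true, List.mem_range, false_and, false_or] at h1
      obtain ⟨v, hv5, hv, x, hx, h2, h3⟩ := h1
      intro hB
      have := hB ⟨v, hv5⟩ ((notin_pk m _).2 (by simpa using hv)) x
        ((allowed_iff _ _ _ _ _ _).2 ⟨hx, h2⟩)
      rw [move_eq s m hm _ _ x (hx5 x hx)] at this
      exact ih _ _ (nm_lt m hm ⟨v, hv5⟩) h3 this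
    · rw [if_pos (by simp [toPos])]
      simp only [fa, if_true, List.any_eq_true, List.all_eq_true, Bool.or_eq_true,
        Bool.and_eq_true, Bool.false_eq_true, false_or] at h1
      rintro ⟨v, hv, hB⟩
      have hv' := (notin_pk m v).1 hv
      rcases h1 v (List.mem_range.mpr v.2) with h2 | ⟨⟨y, hy, hy2⟩, h2⟩
      · rw [hv'] at h2; cases h2
      · rcases hB with hB | ⟨x, hx, hB⟩
        · exact hB y ((allowed_iff _ _ _ _ _ _).2 ⟨hy, hy2⟩)
        · rw [allowed_iff] at hx
          rcases h2 x hx.1 with h3 | h3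
          · rw [hx.2] at h3; cases h3
          · rw [move_eq s m hm _ v x (hx5 x hx.1)] at hB
            exact ih _ _ (nm_lt m hm v) h3 hB

lemma start_eq : start 5 = toPos 0 0 false := by
  simp only [start, toPos]
  congr 1
  funext v; simp [dg]

lemma cB1 : chkB 1 ([1] :: tB1.tail) false = true := by decide +kernel
lemma wB1 : BobWins G0 1 20 (start 5) := by
  rw [start_eq]
  exact mono' _ _ _ (by decide +kernel) (soundB 1 (by decide) _ _ _ cB1 0 0 (by decide) (by decide))

lemma cB2 : chkB 2 ([1] :: tB2.tail) false = true := by decide +kernel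
lemma wB2 : BobWins G0 2 20 (start 5) := by
  rw [start_eq]
  exact mono' _ _ _ (by decide +kernel) (soundB 2 (by decide) _ _ _ cB2 0 0 (by decide) (by decide))

lemma cB3 : chkB 3 ([1] :: tB3.tail) false = true := by decide +kernel
lemma wB3 : BobWins G0 3 20 (start 5) := by
  rw [start_eq]
  exact mono' _ _ _ (by decide +kernel) (soundB 3 (by decide) _ _ _ cB3 0 0 (by decide) (by decide))

lemma cB4 : chkB 4 ([1] :: tB4.tail) false = true := by decide +kernel
lemma wB4 : BobWins G0 4 20 (start 5) := by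
  rw [start_eq]
  exact mono' _ _ _ (by decide +kernel) (soundB 4 (by decide) _ _ _ cB4 0 0 (by decide) (by decide))

lemma cA : chkA 4 ([1] :: tA.tail) false = true := by decide +kernel
lemma wA : ¬ BobWins G0 4 15 (start 5) := by
  rw [start_eq]
  exact soundA 4 (by decide) _ _ _ cA 0 0 (by decide) (by decide)

theorem result : ∃ (n : ℕ) (G : SimpleGraph (Fin n)) (k : ℕ), 1 ≤ k ∧
    (∀ j, 1 ≤ j → j ≤ k → ¬ AliceWins G j) ∧
    IsLeast {r | BobWins G k (r * n) (start n)} 4 := by
  refine ⟨5, G0, 4, by decide, ?_, wB4, ?_⟩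
  · intro j h1 h2
    interval_cases j
    · exact not_alice _ _ _ wB1
    · exact not_alice _ _ _ wB2
    · exact not_alice _ _ _ wB3
    · exact not_alice _ _ _ wB4
  · intro r hr
    by_contra hlt
    exact wA (mono' _ _ _ (by omega) hr)

end Pool.Agent.Results.MP_16080b_co.Rounds
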